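import Mathlib
import Pool.Agent.V11181.FIP.Struct

/-!
MP_2e96e9 (Q1): for all `1 ≤ p ≤ r` such that `[r]^(p)` fails the fixed intersection property
there is an `r`-uniform hypergraph satisfying (a) and (b).
-/

open Finset

namespace Pool.Agent.Results.MP_2e96e9_co.FailureWitness

/-- the family `[n]^(p)` of `p`-element subsets of an `n`-element set -/
abbrev PSub (n p : ℕ) : Type := {I : Finset (Fin n) // I.card = p}

/-- `f` fixes an intersection: some two distinct `x, y` satisfy `|f x ∩ f y| = |x ∩ y|` -/
def FixesIntersection {n p : ℕ} (f : PSub n p → PSub n p) : Prop :=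
  ∃ x y : PSub n p, x ≠ y ∧ ((f x).1 ∩ (f y).1).card = (x.1 ∩ y.1).card

/-- the fixed intersection property of `[n]^(p)`: every nonconstant `f` fixes an intersection -/
def FixedIntersectionProperty (n p : ℕ) : Prop :=
  ∀ f : PSub n p → PSub n p, (∃ x y, f x ≠ f y) → FixesIntersection f

/-- a finite `r`-uniform hypergraph -/
structure Hypergraph (r : ℕ) where
  /-- vertices -/
  V : Type
  /-- finitely many vertices -/
  fin : Fintype V
  /-- decidable equality of vertices -/
  dec : DecidableEq V
  /-- the edges -/
  edges : Finset (Finset V)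
  /-- every edge has exactly `r` elements -/
  uniform : ∀ e ∈ edges, e.card = r

attribute [instance] Hypergraph.fin Hypergraph.dec

/-- (a): the `p`-sets of vertices can be partitioned into `C(r,p)` (nonempty) classes so that no
edge has all its `p`-subsets in a single class; `W A` is the index of the class of `A`. -/
def PropA {r : ℕ} (p : ℕ) (G : Hypergraph r) : Prop :=
  ∃ W : Finset G.V → Fin (r.choose p),
    (∀ i, ∃ A : Finset G.V, A.card = p ∧ W A = i) ∧
    ∀ e ∈ G.edges, ∀ i, ¬ ∀ A ⊆ e, A.card = p → W A = i

/-- an orientation: for every edge `e` the tuple `D e = (x_1, ..., x_r)` lists the vertices of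
`e`, each exactly once -/
def IsOrientation {r : ℕ} (G : Hypergraph r) (D : Finset G.V → Fin r → G.V) : Prop :=
  ∀ e ∈ G.edges, Function.Injective (D e) ∧ univ.image (D e) = e

/-- the `I`-degree of `A`: the number of edges `e` with `{x_i : i ∈ I} = A` -/
def deg {r : ℕ} (G : Hypergraph r) (D : Finset G.V → Fin r → G.V) (I : Finset (Fin r))
    (A : Finset G.V) : ℕ :=
  (G.edges.filter (fun e => I.image (D e) = A)).card

/-- (b): every orientation has a `p`-set all of whose `I`-degrees are positive -/
def PropB {r : ℕ} (p : ℕ) (G : Hypergraph r) : Prop :=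
  ∀ D : Finset G.V → Fin r → G.V, IsOrientation G D →
    ∃ A : Finset G.V, A.card = p ∧ ∀ I : Finset (Fin r), I.card = p → 0 < deg G D I A

section counting

variable {r p : ℕ}

/-- permutations act on `p`-sets -/
def act (σ : Equiv.Perm (Fin r)) (x : PSub r p) : PSub r p :=
  ⟨x.1.image σ, by rw [Finset.card_image_of_injective _ σ.injective, x.2]⟩

theorem act_mul (σ τ : Equiv.Perm (Fin r)) (x : PSub r p) :
    act (σ * τ) x = act σ (act τ x) := by
  apply Subtype.ext
  simp only [act]
  rw [Finset.image_image]
  rfl

theorem act_inj (σ : Equiv.Perm (Fin r)) {x y : PSub r p} (h : act σ x = act σ y) : x = y := by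
  apply Subtype.ext
  exact Finset.image_injective σ.injective (congrArg Subtype.val h)

theorem act_inter (σ : Equiv.Perm (Fin r)) (x y : PSub r p) :
    ((act σ x).1 ∩ (act σ y).1).card = (x.1 ∩ y.1).card := by
  simp only [act]
  rw [← Finset.image_inter _ _ σ.injective, Finset.card_image_of_injective _ σ.injective]

theorem act_trans (x y : PSub r p) : ∃ τ : Equiv.Perm (Fin r), act τ x = y := by
  classical
  have hc : x.1.card = y.1.card := by rw [x.2, y.2]
  let e : {a // a ∈ x.1} ≃ {a // a ∈ y.1} := Finset.equivOfCardEq hc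
  refine ⟨e.extendSubtype, ?_⟩
  apply Subtype.ext
  apply Finset.eq_of_subset_of_card_le
  · intro b hb
    obtain ⟨a, ha, rfl⟩ := mem_image.mp hb
    exact e.extendSubtype_mem a ha
  · rw [(act e.extendSubtype x).2, y.2]

/-- a map without fixed intersections meets every permutation -/
theorem meets (f : PSub r p → PSub r p) (hf : ¬ FixesIntersection f)
    (J0 : PSub r p) (σ : Equiv.Perm (Fin r)) : ∃ x : PSub r p, f (act σ x) = x := by
  classical
  suffices h : ∃ J : PSub r p, act σ (f J) = J by
    obtain ⟨J, hJ⟩ := h
    exact ⟨f J, by rw [hJ]⟩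
  have hone : ∀ σ : Equiv.Perm (Fin r),
      (∑ J : PSub r p, if act σ (f J) = J then 1 else 0) ≤ 1 := by
    intro σ
    rw [← Finset.card_filter]
    rw [Finset.card_le_one]
    intro J hJ J' hJ'
    rw [mem_filter] at hJ hJ'
    by_contra hne
    apply hf
    refine ⟨J, J', hne, ?_⟩
    rw [← act_inter σ, hJ.2, hJ'.2]
  have htot : (∑ σ : Equiv.Perm (Fin r), ∑ J : PSub r p, if act σ (f J) = J then 1 else 0)
      = ∑ σ : Equiv.Perm (Fin r), 1 := by
    rw [Finset.sum_comm]
    have h1 : ∀ J : PSub r p,
        (∑ σ : Equiv.Perm (Fin r), if act σ (f J) = J then 1 else 0)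
          = ∑ σ : Equiv.Perm (Fin r), if act σ J0 = J then 1 else 0 := by
      intro J
      obtain ⟨τ, hτ⟩ := act_trans J0 (f J)
      apply Fintype.sum_equiv (Equiv.mulRight τ)
      intro σ
      have h2 : act (σ * τ) J0 = act σ (f J) := by rw [act_mul, hτ]
      change (if act σ (f J) = J then 1 else 0) = if act (σ * τ) J0 = J then 1 else 0
      simp only [h2]
    rw [Finset.sum_congr rfl (fun J _ => h1 J), Finset.sum_comm]
    apply Finset.sum_congr rfl
    intro σ _
    rw [Finset.sum_ite_eq]
    simp
  have heq := (Finset.sum_eq_sum_iff_of_le (fun σ _ => hone σ)).mp htot σ (mem_univ _)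
  by_contra hno
  push Not at hno
  rw [Finset.sum_eq_zero] at heq
  · exact zero_ne_one heq
  · intro J _
    rw [if_neg (hno J)]

end counting

/-- The answer to Q1 is yes: for all `1 ≤ p ≤ r` such that `[r]^(p)` fails the fixed intersection
property there is an `r`-uniform hypergraph satisfying (a) and (b). -/
theorem result (p r : ℕ) (hp : 1 ≤ p) (_hpr : p ≤ r) (hF : ¬ FixedIntersectionProperty r p) :
    ∃ G : Hypergraph r, PropA p G ∧ PropB p G := by
  classical
  unfold FixedIntersectionProperty at hF
  push Not at hF
  obtain ⟨f, ⟨x1, x2, hx12⟩, hf⟩ := hF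
  have hne : Nonempty (PSub r p) := ⟨x1⟩
  obtain ⟨V, hVf, hVd, χ, hP⟩ :=
    Pool.Agent.V11181.FIP.struct_ramsey p r hp (PSub r p) (PSub r p)
  let G : Hypergraph r :=
    { V := V
      fin := hVf
      dec := hVd
      edges := univ.filter (fun e : Finset V => e.card = r ∧
        ¬ ∃ k, ∀ A ⊆ e, A.card = p → χ A = k)
      uniform := fun e he => (mem_filter.mp he).2.1 }
  -- every non-constant pattern is realised on an edge
  have hedge : ∀ φ : Fin r → V, Function.Injective φ → ∀ B1 B2 : Finset (Fin r),
      B1.card = p → B2.card = p → χ (B1.image φ) ≠ χ (B2.image φ) →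
      univ.image φ ∈ G.edges := by
    intro φ hφ B1 B2 hB1 hB2 hne
    change univ.image φ ∈ univ.filter (fun e : Finset V => e.card = r ∧
        ¬ ∃ k, ∀ A ⊆ e, A.card = p → χ A = k)
    rw [mem_filter]
    refine ⟨mem_univ _, ?_, ?_⟩
    · rw [Finset.card_image_of_injective _ hφ]
      simp
    · rintro ⟨k, hk⟩
      apply hne
      rw [hk _ (Finset.image_subset_image (subset_univ _))
          (by rw [Finset.card_image_of_injective _ hφ]; exact hB1),
        hk _ (Finset.image_subset_image (subset_univ _))
          (by rw [Finset.card_image_of_injective _ hφ]; exact hB2)]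
  refine ⟨G, ?_, ?_⟩
  · have hcard : Fintype.card (PSub r p) = r.choose p := by
      rw [Fintype.card_finset_len, Fintype.card_fin]
    let E : PSub r p ≃ Fin (r.choose p) := Fintype.equivFinOfCardEq hcard
    refine ⟨fun A => E (χ A), ?_, ?_⟩
    · intro i
      obtain ⟨g, hg⟩ := hP (fun _ => x1)
      obtain ⟨φ, hφ, hφ2⟩ := hg (fun _ => E.symm i)
      refine ⟨x1.1.image φ, ?_, ?_⟩
      · rw [Finset.card_image_of_injective _ hφ]
        exact x1.2
      · simp only
        rw [(hφ2 x1.1 x1.2).1]
        simp
    · intro e he i hi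
      have h1 := (mem_filter.mp he).2.2
      apply h1
      refine ⟨E.symm i, fun A hA hAp => ?_⟩
      have h2 := hi A hA hAp
      simp only at h2
      rw [← h2]
      simp
  · intro D hD
    by_contra hno
    push Not at hno
    have hno' : ∀ A : Finset V, ∃ I : PSub r p, A.card = p →
        ∀ e ∈ G.edges, I.1.image (D e) ≠ A := by
      intro A
      by_cases hA : A.card = p
      · obtain ⟨I, hI, hdeg⟩ := hno A hA
        refine ⟨⟨I, hI⟩, fun _ e he heq => ?_⟩
        have h1 : 0 < deg G D I A := by
          unfold deg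
          rw [Finset.card_pos]
          exact ⟨e, mem_filter.mpr ⟨he, heq⟩⟩
        omega
      · exact ⟨x1, fun h => absurd h hA⟩
    choose c hc using hno'
    obtain ⟨g, hg⟩ := hP c
    -- the basic consequence for an edge `image φ`
    have key : ∀ φ : Fin r → V, Function.Injective φ → univ.image φ ∈ G.edges →
        ∃ σ : Equiv.Perm (Fin r), ∀ I : PSub r p, c ((act σ I).1.image φ) ≠ I := by
      intro φ hφ he
      obtain ⟨hinj, himg⟩ := hD _ he
      have h1 : ∀ j : Fin r, ∃ k : Fin r, φ k = D (univ.image φ) j := by
        intro j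
        have h2 : D (univ.image φ) j ∈ univ.image φ := by
          have h3 : D (univ.image φ) j ∈ univ.image (D (univ.image φ)) :=
            mem_image_of_mem _ (mem_univ _)
          rw [himg] at h3
          exact h3
        obtain ⟨k, _, hk⟩ := mem_image.mp h2
        exact ⟨k, hk⟩
      choose s hs using h1
      have hsinj : Function.Injective s := by
        intro j j' hjj
        apply hinj
        rw [← hs j, ← hs j', hjj]
      let σ : Equiv.Perm (Fin r) :=
        Equiv.ofBijective s (Finite.injective_iff_bijective.mp hsinj)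
      refine ⟨σ, fun I hI => ?_⟩
      have h4 : (act σ I).1.image φ = I.1.image (D (univ.image φ)) := by
        simp only [act]
        rw [Finset.image_image]
        apply Finset.image_congr
        intro j _
        exact hs j
      have h5 := hc ((act σ I).1.image φ) (by
        rw [Finset.card_image_of_injective _ hφ]
        exact (act σ I).2) _ he
      rw [hI] at h5
      exact h5 h4.symm
    by_cases hginj : Function.Injective g
    · have hgbij : Function.Bijective g := Finite.injective_iff_bijective.mp hginj
      obtain ⟨gi, hgi⟩ := hgbij.2.hasRightInverse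
      obtain ⟨φ, hφ, hφ2⟩ := hg (fun B => if hB : B.card = p then gi (f ⟨B, hB⟩) else x1)
      have hval : ∀ x : PSub r p, χ (x.1.image φ) = gi (f x) ∧ c (x.1.image φ) = f x := by
        intro x
        obtain ⟨h1, h2⟩ := hφ2 x.1 x.2
        rw [dif_pos x.2] at h1 h2
        exact ⟨h1, by rw [h2, hgi]⟩
      have he := hedge φ hφ x1.1 x2.1 x1.2 x2.2 (by
        rw [(hval x1).1, (hval x2).1]
        intro h
        apply hx12
        have h3 := congrArg g h
        rw [hgi, hgi] at h3
        exact h3)
      obtain ⟨σ, hσ⟩ := key φ hφ he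
      obtain ⟨I, hI⟩ := meets f hf x1 σ
      apply hσ I
      rw [(hval _).2, hI]
    · unfold Function.Injective at hginj
      push Not at hginj
      obtain ⟨i, j, hgij, hij⟩ := hginj
      obtain ⟨φ, hφ, hφ2⟩ := hg (fun B => if B = i.1 then i else j)
      have hc0 : ∀ x : PSub r p, c (x.1.image φ) = g i := by
        intro x
        have h1 := (hφ2 x.1 x.2).2
        rw [h1]
        by_cases hx : x.1 = i.1
        · rw [if_pos hx]
        · rw [if_neg hx, hgij]
      have he := hedge φ hφ i.1 j.1 i.2 j.2 (by
        rw [(hφ2 i.1 i.2).1, (hφ2 j.1 j.2).1, if_pos rfl,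
          if_neg (fun h => hij (Subtype.ext h).symm)]
        exact hij)
      obtain ⟨σ, hσ⟩ := key φ hφ he
      exact hσ (g i) (hc0 _)

end Pool.Agent.Results.MP_2e96e9_co.FailureWitness
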